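import Pool.Agent.Helper87.AT.Main
import Pool.Agent.Helper87.AT.Few
import Pool.Agent.Helper87.AU.Barrier

set_option autoImplicit false

namespace Pool.Agent.Results.MP_8d783e_lc.FewModels

open FirstOrder FirstOrder.Language

/-- A finite vocabulary of function (and constant) and relation symbols. -/
def FiniteVocabulary (L : FirstOrder.Language.{0, 0}) : Prop :=
  Finite (Σ n, L.Functions n) ∧ Finite (Σ n, L.Relations n)

/-- The spectrum of a sentence: the set of the sizes of its finite nonempty models. -/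
def Spectrum (L : FirstOrder.Language.{0, 0}) (φ : L.Sentence) : Set ℕ :=
  {n | 0 < n ∧ ∃ (M : Type) (_ : L.Structure M), Nat.card M = n ∧ φ.Realize M}

/-- `S` is the spectrum of a sentence over a finite vocabulary. -/
def IsSpectrum (S : Set ℕ) : Prop :=
  ∃ (L : FirstOrder.Language.{0, 0}) (φ : L.Sentence), FiniteVocabulary L ∧ Spectrum L φ = S

/-- The number of labelled models of `φ` on `n` points: the models with universe `{0, …, n - 1}`. -/
noncomputable def models (L : FirstOrder.Language.{0, 0}) (φ : L.Sentence) (n : ℕ) : ℕ :=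
  Nat.card {S : L.Structure (Fin n) // @Sentence.Realize L (Fin n) S φ}

/-- For all large `n` there are at most `n! / C ^ n` labelled models on `n` points. -/
def Few (C : ℕ) (L : FirstOrder.Language.{0, 0}) (φ : L.Sentence) : Prop :=
  ∃ n₀ : ℕ, ∀ n, n₀ ≤ n → models L φ n * C ^ n ≤ n.factorial

/-- Ultimately periodic sets. -/
def UltimatelyPeriodic (S : Set ℕ) : Prop :=
  ∃ N p : ℕ, 0 < p ∧ ∀ n, N ≤ n → (n ∈ S ↔ n + p ∈ S)

/-- **A sharp threshold for Asser's problem: the number of labelled models.**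

(1) For every sentence `φ` over a finite vocabulary there is a number `C` such that
(a) every finite model `A` of `φ` with a set `Y` of points such that more than `C ^ |Y|` automorphisms of `A` fix
all points outside `Y` yields an infinite arithmetic progression `|A|, |A| + k, |A| + 2 k, …` in the
spectrum of `φ`;
(b) if every large `n` in the spectrum is the size of such a model (for example of a model with more than
`C ^ n` automorphisms), then the spectrum is ultimately periodic and its complement is a spectrum;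
(c) the same holds if `φ` has at most `n! / C ^ n` labelled models on `n` points for all large `n`.

(2) The spectra of the sentences which have, for every `C`, at most `n! / C ^ n` labelled models on `n` points
for all large `n`, are exactly the ultimately periodic sets of positive integers.

(3) The condition cannot be relaxed to a fixed `C`: for every `C`, if the complement of the spectrum of every
sentence with at most `n! / C ^ n` labelled models on `n` points for all large `n` is a spectrum, then the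
complement of every spectrum is a spectrum (a positive answer to Asser's problem). -/
theorem result :
    (∀ (L : FirstOrder.Language.{0, 0}) (φ : L.Sentence), FiniteVocabulary L → ∃ C : ℕ,
      (∀ (A : Type) [L.Structure A] [Finite A] (Y : Set A), φ.Realize A →
        C ^ Y.ncard < Nat.card {f : A ≃[L] A // ∀ x, x ∉ Y → f x = x} →
        ∃ k, 0 < k ∧ ∀ j, Nat.card A + k * j ∈ Spectrum L φ) ∧
      (∀ B : ℕ, (∀ n ∈ Spectrum L φ, B ≤ n → ∃ (A : Type) (_ : L.Structure A) (Y : Set A),
          Nat.card A = n ∧ φ.Realize A ∧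
            C ^ Y.ncard < Nat.card {f : A ≃[L] A // ∀ x, x ∉ Y → f x = x}) →
        UltimatelyPeriodic (Spectrum L φ) ∧ IsSpectrum {n | 0 < n ∧ n ∉ Spectrum L φ}) ∧
      (Few C L φ →
        UltimatelyPeriodic (Spectrum L φ) ∧ IsSpectrum {n | 0 < n ∧ n ∉ Spectrum L φ})) ∧
    (∀ S : Set ℕ, 0 ∉ S →
      ((∃ (L : FirstOrder.Language.{0, 0}) (φ : L.Sentence), FiniteVocabulary L ∧
        (∀ C : ℕ, Few C L φ) ∧ Spectrum L φ = S) ↔ UltimatelyPeriodic S)) ∧
    (∀ C : ℕ,
      (∀ (L : FirstOrder.Language.{0, 0}) (φ : L.Sentence), FiniteVocabulary L → Few C L φ →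
        IsSpectrum {n | 0 < n ∧ n ∉ Spectrum L φ}) →
      ∀ (L : FirstOrder.Language.{0, 0}) (φ : L.Sentence), FiniteVocabulary L →
        IsSpectrum {n | 0 < n ∧ n ∉ Spectrum L φ}) := by
  have part1 : ∀ (L : FirstOrder.Language.{0, 0}) (φ : L.Sentence), FiniteVocabulary L →
      ∃ C : ℕ,
      (∀ (A : Type) [L.Structure A] [Finite A] (Y : Set A), φ.Realize A →
        C ^ Y.ncard < Nat.card {f : A ≃[L] A // ∀ x, x ∉ Y → f x = x} →
        ∃ k, 0 < k ∧ ∀ j, Nat.card A + k * j ∈ Spectrum L φ) ∧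
      (∀ B : ℕ, (∀ n ∈ Spectrum L φ, B ≤ n → ∃ (A : Type) (_ : L.Structure A) (Y : Set A),
          Nat.card A = n ∧ φ.Realize A ∧
            C ^ Y.ncard < Nat.card {f : A ≃[L] A // ∀ x, x ∉ Y → f x = x}) →
        UltimatelyPeriodic (Spectrum L φ) ∧ IsSpectrum {n | 0 < n ∧ n ∉ Spectrum L φ}) ∧
      (Few C L φ →
        UltimatelyPeriodic (Spectrum L φ) ∧ IsSpectrum {n | 0 < n ∧ n ∉ Spectrum L φ}) := by
    intro L φ hL
    obtain ⟨C₁, h1⟩ := Pool.Agent.Helper87.AS.aut_pump hL φ
    obtain ⟨C₂, h2⟩ := Pool.Agent.Helper87.AS.aut_steps hL φ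
    have key : ∀ B : ℕ, (∀ n ∈ Spectrum L φ, B ≤ n → ∃ (A : Type) (_ : L.Structure A)
          (Y : Set A), Nat.card A = n ∧ φ.Realize A ∧
            C₂ ^ Y.ncard < Nat.card {f : A ≃[L] A // ∀ x, x ∉ Y → f x = x}) →
        UltimatelyPeriodic (Spectrum L φ) ∧ IsSpectrum {n | 0 < n ∧ n ∉ Spectrum L φ} := by
      intro B hB
      obtain ⟨D, hD, hD2⟩ := h2 B hB
      have h0 : (0 : ℕ) ∉ Spectrum L φ := fun h => absurd h.1 (lt_irrefl 0)
      have hD3 : ∀ n ∈ Spectrum L φ, B < n → n + D ∈ Spectrum L φ :=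
        fun n hn hBn => hD2 n hn hBn.le
      constructor
      · obtain ⟨N, hN⟩ := Pool.Agent.Helper31.Spectra.eventually_periodic (Spectrum L φ) B D hD hD3
        exact ⟨N, D, hD, hN⟩
      · exact (Pool.Agent.Helper31.Spectra.isSpectrum_compl (Spectrum L φ) h0 B D hD hD3).2
    refine ⟨max C₁ C₂ + 1, ?_, ?_, ?_⟩
    · intro A _ _ Y hA hcard
      have h3 : C₁ ^ Y.ncard ≤ (max C₁ C₂ + 1) ^ Y.ncard :=
        Nat.pow_le_pow_left (by omega) _
      obtain ⟨k, hk, hup, hdown⟩ := h1 A Y hA (lt_of_le_of_lt h3 hcard)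
      have hne := (hdown 0 (Nat.zero_le _)).1
      refine ⟨k, hk, fun j => ⟨by omega, hup j⟩⟩
    · intro B hB
      refine key B fun n hn hBn => ?_
      obtain ⟨A, sA, Y, hA, hφ, hcard⟩ := hB n hn hBn
      exact ⟨A, sA, Y, hA, hφ, lt_of_le_of_lt (Nat.pow_le_pow_left (by omega) _) hcard⟩
    · rintro ⟨n₀, hn₀⟩
      refine key n₀ fun n hn hn' => ?_
      obtain ⟨A, sA, hA, hφ, hcard⟩ := Pool.Agent.Helper87.AS.aut_of_few (C := C₂) hL φ hn
        (le_trans (Nat.mul_le_mul_left _ (Nat.pow_le_pow_left (by omega) _)) (hn₀ n hn'))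
      refine ⟨A, sA, Set.univ, hA, hφ, ?_⟩
      rw [Pool.Agent.Helper87.AS.card_fix_univ, Set.ncard_univ, hA]
      exact hcard
  refine ⟨part1, fun S h0 => ⟨?_, ?_⟩, ?_⟩
  · rintro ⟨L, φ, hL, hfew, rfl⟩
    obtain ⟨C, -, -, h3⟩ := part1 L φ hL
    exact (h3 (hfew C)).1
  · rintro ⟨N, p, hp, hN⟩
    obtain ⟨L, φ, hL, hspec, hfew⟩ := Pool.Agent.Helper87.AS.exists_few S h0 N p hp hN
    exact ⟨L, φ, hL, hfew, hspec⟩
  · intro C h L φ hL
    exact Pool.Agent.Helper87.AU.barrier C (fun L' φ' hL' hfew => h L' φ' hL' hfew) L φ hL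

end Pool.Agent.Results.MP_8d783e_lc.FewModels
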