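import Mathlib
import Pool.Agent.Helper72.TX.MainC
import Pool.Agent.Helper72.TW.Barrier2
import Pool.Agent.Helper72.TW.NonPer3

set_option autoImplicit false

namespace Pool.Agent.Results.MP_8d783e_lc.LayeringWidth

open FirstOrder FirstOrder.Language

/-- A finite vocabulary of function (and constant) and relation symbols. -/
def FiniteVocabulary (L : FirstOrder.Language.{0, 0}) : Prop :=
  Finite (Σ n, L.Functions n) ∧ Finite (Σ n, L.Relations n)

/-- A finite vocabulary of relation symbols of arity at most `A`. -/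
def FiniteRelational (A : ℕ) (L : FirstOrder.Language.{0, 0}) : Prop :=
  (∀ n, IsEmpty (L.Functions n)) ∧ (∀ n, A < n → IsEmpty (L.Relations n)) ∧
    Finite (Σ n, L.Relations n)

/-- The spectrum of a sentence: the set of the sizes of its finite nonempty models. -/
def Spectrum (L : FirstOrder.Language.{0, 0}) (φ : L.Sentence) : Set ℕ :=
  {n | 0 < n ∧ ∃ (M : Type) (_ : L.Structure M), Nat.card M = n ∧ φ.Realize M}

/-- `S` is the spectrum of a sentence over a finite vocabulary. -/
def IsSpectrum (S : Set ℕ) : Prop :=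
  ∃ (L : FirstOrder.Language.{0, 0}) (φ : L.Sentence), FiniteVocabulary L ∧ Spectrum L φ = S

/-- Ultimately periodic sets. -/
def UltimatelyPeriodic (S : Set ℕ) : Prop :=
  ∃ N p : ℕ, 0 < p ∧ ∀ n, N ≤ n → (n ∈ S ↔ n + p ∈ S)

/-- A tree-layering of width `w` of `M` along the `b`-ary tree, whose nodes are the words over `Fin b`:
every point is assigned to a node, a node has at most `w` points, the parent of an occupied node is
occupied, and two points of a common tuple of a relation lie in the same node or in a node and its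
child. For `b = 1` this is a path layering: a partition into consecutive layers. -/
def TreeLayering (b w : ℕ) (L : FirstOrder.Language.{0, 0}) (M : Type) [L.Structure M] : Prop :=
  ∃ β : M → List (Fin b), (∀ α, Nat.card {x // β x = α} ≤ w) ∧
    (∀ x α i, β x = α ++ [i] → ∃ y, β y = α) ∧
    ∀ n (R : L.Relations n) (v : Fin n → M), Structure.RelMap R v → ∀ i j,
      β (v i) = β (v j) ∨ (∃ c, β (v i) = β (v j) ++ [c]) ∨ ∃ c, β (v j) = β (v i) ++ [c]

/-- The Gaifman graph: different points are adjacent if they occur together in a tuple of a relation. -/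
def gaifman (L : FirstOrder.Language.{0, 0}) (M : Type) [L.Structure M] : SimpleGraph M where
  Adj u v := u ≠ v ∧ ∃ (n : ℕ) (R : L.Relations n) (x : Fin n → M),
    Structure.RelMap R x ∧ u ∈ Set.range x ∧ v ∈ Set.range x
  symm := ⟨fun _ _ h => ⟨h.1.symm, h.2.choose, h.2.choose_spec.choose,
    h.2.choose_spec.choose_spec.choose, h.2.choose_spec.choose_spec.choose_spec.1,
    h.2.choose_spec.choose_spec.choose_spec.2.2, h.2.choose_spec.choose_spec.choose_spec.2.1⟩⟩
  loopless := ⟨fun _ h => h.1 rfl⟩

/-- All degrees of `G` are at most `d`. -/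
def DegreeLE (d : ℕ) {V : Type} (G : SimpleGraph V) : Prop :=
  ∀ v : V, {u | G.Adj v u}.ncard ≤ d

/-- `G` has tree-width at most `k`: there is an elimination order `ρ` of width at most `k`, i.e. for
every `v` at most `k` points of rank above `ρ v` have a neighbour that is reachable from `v` through
points of rank at most `ρ v`. -/
def TreeWidthLE (k : ℕ) {V : Type} (G : SimpleGraph V) : Prop :=
  ∃ ρ : V → ℕ, Function.Injective ρ ∧ ∀ v,
    {w | ρ v < ρ w ∧ ∃ u, Relation.ReflTransGen (fun a b => G.Adj a b ∧ ρ b ≤ ρ v) v u ∧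
      G.Adj u w}.ncard ≤ k

/-- The three kinds of narrow structures: `M` has a tree-layering along the `b`-ary tree of a width `w`
with `w ^ A ≤ C log₂ |M|`, or all degrees of its Gaifman graph are at most `d` and it has a
tree-layering of a width `w` with `w log w ≤ C log |M|`, or all degrees are at most `d` and the
tree-width `k` has `k log k ≤ C log |M|`. -/
def Narrow (A b d C : ℕ) (L : FirstOrder.Language.{0, 0}) (M : Type) [L.Structure M] : Prop :=
  (∃ w, TreeLayering b w L M ∧ 2 ^ (w ^ A) ≤ Nat.card M ^ C) ∨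
  (DegreeLE d (gaifman L M) ∧ ∃ w, TreeLayering b w L M ∧ w ^ w ≤ Nat.card M ^ C) ∨
  (DegreeLE d (gaifman L M) ∧ ∃ k, TreeWidthLE k (gaifman L M) ∧ k ^ k ≤ Nat.card M ^ C)

/-- **Asser's problem for sentences with narrow models.**

(1) Let `φ` be a sentence over a finite vocabulary of relation symbols of arity at most `A`, `A ≥ 1`,
and let `b`, `d`, `C` be numbers. If every large `n` in the spectrum of `φ` is the size of a narrow
model of `φ`, then the complement of the spectrum of `φ` is a spectrum.

(2) For every `k`: if the complement of the spectrum of every sentence over binary relation symbols,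
all of whose finite nonempty models `M` have a path layering of a width `w` with `w ^ k ≤ |M|`, is a
spectrum, then the complement of every spectrum is a spectrum (a positive answer to Asser's problem).

(3) There is a sentence over binary relation symbols, all of whose finite nonempty models `M` have a
path layering of a width `w` with `w ^ 2 ≤ log₂ |M|`, so that (1) applies to it, whose spectrum is
not ultimately periodic. -/
theorem result :
    (∀ (A b d C B : ℕ) (L : FirstOrder.Language.{0, 0}) (φ : L.Sentence), 1 ≤ A →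
      FiniteRelational A L →
      (∀ n ∈ Spectrum L φ, B ≤ n → ∃ (M : Type) (_ : L.Structure M),
        Nat.card M = n ∧ φ.Realize M ∧ Narrow A b d C L M) →
      IsSpectrum {n | 0 < n ∧ n ∉ Spectrum L φ}) ∧
    (∀ k : ℕ,
      (∀ (L : FirstOrder.Language.{0, 0}) (φ : L.Sentence), FiniteRelational 2 L →
        (∀ (M : Type) [L.Structure M] [Finite M] [Nonempty M], φ.Realize M →
          ∃ w, TreeLayering 1 w L M ∧ w ^ k ≤ Nat.card M) →
        IsSpectrum {n | 0 < n ∧ n ∉ Spectrum L φ}) →
      ∀ (L : FirstOrder.Language.{0, 0}) (φ : L.Sentence), FiniteVocabulary L →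
        IsSpectrum {n | 0 < n ∧ n ∉ Spectrum L φ}) ∧
    (∃ (L : FirstOrder.Language.{0, 0}) (φ : L.Sentence), FiniteRelational 2 L ∧
      (∀ (M : Type) [L.Structure M] [Finite M] [Nonempty M], φ.Realize M →
        ∃ w, TreeLayering 1 w L M ∧ 2 ^ (w ^ 2) ≤ Nat.card M) ∧
      ¬ UltimatelyPeriodic (Spectrum L φ)) := by
  refine ⟨?_, ?_, ?_⟩
  · intro A b d C B L φ hA hL h
    refine Pool.Agent.Helper72.TX.main_mix hL.1 hL.2.2 A hA hL.2.1 φ b d C B fun n hn hBn => ?_
    obtain ⟨M, sM, h1, h2, h3⟩ := h n hn hBn
    exact ⟨M, sM, h1, h2, h3⟩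
  · intro k hyp L φ hL
    refine Pool.Agent.Helper72.TW.barrier2 k ?_ L φ hL
    intro LL ψ h1 h2 h3 h4
    refine hyp LL ψ ⟨h1, h2, h3⟩ fun M _ _ _ hM => ?_
    obtain ⟨w, h5, h6⟩ := h4 M hM
    exact ⟨w, h6, h5⟩
  · obtain ⟨LL, φ, h1, h2, h3, h4, h5⟩ := Pool.Agent.Helper72.TW.not_periodic3
    refine ⟨LL, φ, ⟨h1, h2, h3⟩, fun M _ _ _ hM => ?_, fun h => h5 h⟩
    obtain ⟨w, h6, h7⟩ := h4 M hM
    exact ⟨w, h7, h6⟩

end Pool.Agent.Results.MP_8d783e_lc.LayeringWidth
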