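import Mathlib
import Pool.Agent.Helper37.PX.Main

set_option autoImplicit false

namespace Pool.Agent.Results.MP_8d783e_lc.PrefixClasses

open FirstOrder FirstOrder.Language

/-- A finite vocabulary of function (and constant) and relation symbols. -/
def FiniteVocabulary (L : FirstOrder.Language.{0, 0}) : Prop :=
  Finite (Σ n, L.Functions n) ∧ Finite (Σ n, L.Relations n)

/-- A vocabulary of relation symbols only. -/
def Relational (L : FirstOrder.Language.{0, 0}) : Prop := ∀ n, IsEmpty (L.Functions n)

/-- A finite vocabulary of relation symbols of arity at most 2. -/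
def FiniteBinary (L : FirstOrder.Language.{0, 0}) : Prop :=
  Relational L ∧ (∀ n, 2 < n → IsEmpty (L.Relations n)) ∧ Finite (Σ n, L.Relations n)

/-- The spectrum of a sentence: the set of the sizes of its finite nonempty models. -/
def Spectrum (L : FirstOrder.Language.{0, 0}) (φ : L.Sentence) : Set ℕ :=
  {n | 0 < n ∧ ∃ (M : Type) (_ : L.Structure M), Nat.card M = n ∧ φ.Realize M}

/-- `S` is the spectrum of a sentence over a finite vocabulary. -/
def IsSpectrum (S : Set ℕ) : Prop :=
  ∃ (L : FirstOrder.Language.{0, 0}) (φ : L.Sentence), FiniteVocabulary L ∧ Spectrum L φ = S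

/-- Ultimately periodic sets. -/
def UltimatelyPeriodic (S : Set ℕ) : Prop :=
  ∃ N p : ℕ, 0 < p ∧ ∀ n, N ≤ n → (n ∈ S ↔ n + p ∈ S)

/-- `φ` consists of the quantifiers of the word `w`, the outermost first (`true`: for all, `false`:
exists), followed by a quantifier free formula. -/
def HasPrefix {L : FirstOrder.Language.{0, 0}} :
    List Bool → {n : ℕ} → L.BoundedFormula Empty n → Prop
  | [], _, φ => φ.IsQF
  | true :: w, n, φ => ∃ ψ : L.BoundedFormula Empty (n + 1), φ = ψ.all ∧ HasPrefix w ψ
  | false :: w, n, φ => ∃ ψ : L.BoundedFormula Empty (n + 1), φ = ψ.ex ∧ HasPrefix w ψ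

/-- The words exists ... exists, for all ... for all, and exists ... exists, for all, exists ...
exists (all numbers of quantifiers, also zero, are allowed). -/
def Easy (w : List Bool) : Prop :=
  (∃ a b, w = List.replicate a false ++ List.replicate b true) ∨
  (∃ a b, w = List.replicate a false ++ true :: List.replicate b false)

theorem hasWord_iff {L : FirstOrder.Language.{0, 0}} (w : List Bool) :
    ∀ {n : ℕ} (φ : L.BoundedFormula Empty n),
      Pool.Agent.Helper37.PX.HasWord w φ ↔ HasPrefix w φ := by
  induction w with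
  | nil => exact fun φ => Iff.rfl
  | cons q w ih =>
    intro n φ
    cases q
    · exact exists_congr fun ψ => and_congr_right fun _ => ih ψ
    · exact exists_congr fun ψ => and_congr_right fun _ => ih ψ

/-- **Asser's problem for the sentences with a given quantifier word.**

(1) For the words exists* for all* and exists* for all exists* every spectrum (of a sentence without
function symbols) is finite or has a finite complement.

(2) For every other word `w`, every sentence `φ` over a finite vocabulary is coded by a single sentence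
`ψ` with the quantifiers `w` and with relation symbols of arity at most two: the sizes of the finite
models of `ψ` are the numbers `c * m ^ k`, `m ≥ 2` a size of a model of `φ`.

(3) For every other word `w`: if the complement of the spectrum of each such sentence with the
quantifiers `w` is a spectrum, then the complement of every spectrum is a spectrum.

(4) For every other word `w` the spectrum of some such sentence is not ultimately periodic. -/
theorem result (w : List Bool) :
    (Easy w → ∀ (L : FirstOrder.Language.{0, 0}) (φ : L.Sentence), Relational L → HasPrefix w φ →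
      (Spectrum L φ).Finite ∨ {n | 0 < n ∧ n ∉ Spectrum L φ}.Finite) ∧
    (¬ Easy w → ∀ (L : FirstOrder.Language.{0, 0}) (φ : L.Sentence), FiniteVocabulary L →
      ∃ c k : ℕ, 1 ≤ c ∧ 2 ≤ k ∧ ∃ (L' : FirstOrder.Language.{0, 0}) (ψ : L'.Sentence),
        FiniteBinary L' ∧ HasPrefix w ψ ∧
        Spectrum L' ψ = {N | ∃ m ∈ Spectrum L φ, 2 ≤ m ∧ N = c * m ^ k}) ∧
    (¬ Easy w →
      (∀ (L : FirstOrder.Language.{0, 0}) (φ : L.Sentence), FiniteBinary L → HasPrefix w φ →
        IsSpectrum {n | 0 < n ∧ n ∉ Spectrum L φ}) →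
      ∀ (L : FirstOrder.Language.{0, 0}) (φ : L.Sentence), FiniteVocabulary L →
        IsSpectrum {n | 0 < n ∧ n ∉ Spectrum L φ}) ∧
    (¬ Easy w → ∃ (L : FirstOrder.Language.{0, 0}) (φ : L.Sentence), FiniteBinary L ∧
      HasPrefix w φ ∧ ¬ UltimatelyPeriodic (Spectrum L φ)) := by
  have hE : Easy w ↔ ¬ Pool.Agent.Helper37.PX.Hard w :=
    (Pool.Agent.Helper37.PX.hard_iff w).symm
  have hH : ¬ Easy w → Pool.Agent.Helper37.PX.Hard w := fun h => by
    by_contra hc
    exact h (hE.2 hc)
  refine ⟨fun h L φ hL hφ => ?_, fun h L φ hL => ?_, fun h hyp L φ hL => ?_, fun h => ?_⟩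
  · exact Pool.Agent.Helper37.PX.easy hL (hE.1 h) φ ((hasWord_iff w φ).2 hφ)
  · obtain ⟨c, k, h1, h2, L', ψ, h3, h4, h5, h6, h7⟩ :=
      Pool.Agent.Helper37.PX.hard_word (hH h) φ hL
    exact ⟨c, k, h1, h2, L', ψ, ⟨h3, h4, h5⟩, (hasWord_iff w ψ).1 h6, h7⟩
  · refine Pool.Agent.Helper37.PX.hard_asser (hH h) (fun L' ψ h1 h2 h3 h4 => ?_) φ hL
    exact hyp L' ψ ⟨h1, h2, h3⟩ ((hasWord_iff w ψ).1 h4)
  · obtain ⟨L, φ, h1, h2, h3, h4, h5⟩ := Pool.Agent.Helper37.PX.hard_nonper (hH h)
    exact ⟨L, φ, ⟨h1, h2, h3⟩, (hasWord_iff w φ).1 h4, h5⟩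

end Pool.Agent.Results.MP_8d783e_lc.PrefixClasses
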