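import Mathlib
import Pool.Agent.Helper31.Spectra
import Pool.Agent.Helper6.ED.Barrier
import Pool.Agent.Helper6.ED.NonPer
import Pool.Agent.Helper79.TL.Enc
import Pool.Agent.Helper72.SQ.Main
import Pool.Agent.Helper72.SQ.Thin

set_option autoImplicit false

namespace Pool.Agent.Results.MP_8d783e_lc.SparseThreshold

open FirstOrder FirstOrder.Language
open Pool.Agent.Helper79.TL (gaifman meet TreeWidthLE ThinGraph thin_U)
open Pool.Agent.Helper72.SQ (pump_mix path_part)

/-- A finite vocabulary of function (and constant) and relation symbols. -/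
def FiniteVocabulary (L : FirstOrder.Language.{0, 0}) : Prop :=
  Finite (Σ n, L.Functions n) ∧ Finite (Σ n, L.Relations n)

/-- A finite vocabulary of relation symbols. -/
def FiniteRelational (L : FirstOrder.Language.{0, 0}) : Prop :=
  (∀ n, IsEmpty (L.Functions n)) ∧ Finite (Σ n, L.Relations n)

/-- A finite vocabulary of relation symbols of arity at most 2. -/
def FiniteBinary (L : FirstOrder.Language.{0, 0}) : Prop :=
  FiniteRelational L ∧ ∀ n, 2 < n → IsEmpty (L.Relations n)

/-- The spectrum of a sentence: the set of the sizes of its finite nonempty models. -/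
def Spectrum (L : FirstOrder.Language.{0, 0}) (φ : L.Sentence) : Set ℕ :=
  {n | 0 < n ∧ ∃ (M : Type) (_ : L.Structure M), Nat.card M = n ∧ φ.Realize M}

/-- `S` is the spectrum of a sentence over a finite vocabulary. -/
def IsSpectrum (S : Set ℕ) : Prop :=
  ∃ (L : FirstOrder.Language.{0, 0}) (φ : L.Sentence), FiniteVocabulary L ∧ Spectrum L φ = S

/-- From some point on the set `S` has the period `p`. -/
def HasPeriod (p : ℕ) (S : Set ℕ) : Prop :=
  ∃ N : ℕ, ∀ n, N ≤ n → (n ∈ S ↔ n + p ∈ S)

/-- The points outside `X` that have a neighbour in `X`. -/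
def outer {V : Type} (G : SimpleGraph V) (X : Set V) : Set V :=
  {w | w ∉ X ∧ ∃ u ∈ X, G.Adj u w}

/-- All points at distance at most `C` from the set `X` have degree at most `d` and lie on no cycle of
length at most `C`. -/
def LocallyTree {V : Type} (d C : ℕ) (G : SimpleGraph V) (X : Set V) : Prop :=
  ∀ x ∈ X, ∀ y, G.edist x y ≤ C → (G.neighborSet y).ncard ≤ d ∧
    ∀ w : G.Walk y y, w.IsCycle → C < w.length

/-- The structure `A` has a sparse part: a set `X` of points with `|X| ≥ C * (b + 1)`, where `b` is the
number of the points outside `X` that have a neighbour in `X` (in the Gaifman graph), such that the edges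
that meet `X` form a graph of tree-width at most `k`, or their number is at most
`(1 + 1 / (2 * C)) * |X|`, or all points at distance at most `C` from `X` have degree at most `d` and lie
on no cycle of length at most `C`. -/
def Sparse (k d C : ℕ) (L : FirstOrder.Language.{0, 0}) (A : Type) [L.Structure A] : Prop :=
  ∃ X : Set A, C * ((outer (gaifman L A) X).ncard + 1) ≤ X.ncard ∧
    (TreeWidthLE k (meet (gaifman L A) X) ∨
      2 * C * (meet (gaifman L A) X).edgeSet.ncard ≤ (2 * C + 1) * X.ncard ∨
      LocallyTree d C (gaifman L A) X)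

/-- `φ` is a sentence over a finite vocabulary of relation symbols of arity at most 2, and all its finite
nonempty models are `C`-thin: the Gaifman graph has average degree at most `2 + 1 / C` and no cycle
shorter than `C`; the edges that meet a suitable set of all but at most `|M| / C` points are disjoint
paths; the deletion of at most `|M| ^ (1 / C)` points leaves disjoint paths (`ThinGraph`); and there is a
set `X` with `|X| ≥ C * (b + 1)` (`b` as in `Sparse`) that is `LocallyTree 2 C`. -/
def Thin (C : ℕ) (L : FirstOrder.Language.{0, 0}) (φ : L.Sentence) : Prop :=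
  FiniteBinary L ∧ ∀ (M : Type) [L.Structure M] [Finite M] [Nonempty M], φ.Realize M →
    ThinGraph C (gaifman L M) ∧
      ∃ X : Set M, C * ((outer (gaifman L M) X).ncard + 1) ≤ X.ncard ∧
        LocallyTree 2 C (gaifman L M) X

/-- **A sharp threshold for Asser's problem: models with a sparse part.**

The Gaifman graph of a relational structure: different elements are adjacent if they occur together in
a tuple of a relation.

(1) For every sentence `φ` over a finite relational vocabulary and all `k, d` there are `C, p > 0` such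
that
(a) every finite model `A` of `φ` with a sparse part (`Sparse k d C`; for instance: the average degree
is at most `2 + 1 / C`, or all degrees are at most `d` and the girth is larger than `C`, `|A| ≥ C`) yields
the arithmetic progression `|A|, |A| + p, |A| + 2 p, …` in the spectrum of `φ`;
(b) if every large `n` in the spectrum is the size of such a model, then from some point on the spectrum
has the period `p`, and its complement is a spectrum.

(2) `C` cannot be chosen independently of `φ`: for every `C > 0`, if the complement of the spectrum of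
every sentence all of whose finite models are `C`-thin (`Thin`; relation symbols of arity at most 2 only)
is a spectrum, then the complement of every spectrum is a spectrum (a positive answer to Asser's
problem).

(3) For every `C > 0` there is such a sentence whose spectrum is not ultimately periodic. -/
theorem result :
    (∀ (L : FirstOrder.Language.{0, 0}) (φ : L.Sentence) (k d : ℕ), FiniteRelational L →
      ∃ C p : ℕ, 0 < C ∧ 0 < p ∧
        (∀ (A : Type) [L.Structure A] [Finite A], φ.Realize A → Sparse k d C L A →
          ∀ j, Nat.card A + p * j ∈ Spectrum L φ) ∧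
        (∀ B : ℕ, (∀ n ∈ Spectrum L φ, B ≤ n → ∃ (A : Type) (_ : L.Structure A),
            Nat.card A = n ∧ φ.Realize A ∧ Sparse k d C L A) →
          HasPeriod p (Spectrum L φ) ∧ IsSpectrum {n | 0 < n ∧ n ∉ Spectrum L φ})) ∧
    (∀ C : ℕ, 0 < C →
      (∀ (L : FirstOrder.Language.{0, 0}) (φ : L.Sentence), Thin C L φ →
        IsSpectrum {n | 0 < n ∧ n ∉ Spectrum L φ}) →
      ∀ (L : FirstOrder.Language.{0, 0}) (φ : L.Sentence), FiniteVocabulary L →
        IsSpectrum {n | 0 < n ∧ n ∉ Spectrum L φ}) ∧
    (∀ C : ℕ, 0 < C → ∃ (L : FirstOrder.Language.{0, 0}) (φ : L.Sentence), Thin C L φ ∧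
      ∀ p, 0 < p → ¬ HasPeriod p (Spectrum L φ)) := by
  refine ⟨?_, ?_, ?_⟩
  · intro L φ k d hL
    obtain ⟨C, p, hC, hp, hpump⟩ := pump_mix hL.1 hL.2 φ k 0 d
    have hsp : ∀ (A : Type) [L.Structure A] [Finite A], φ.Realize A →
        Sparse k d C L A → ∀ j, Nat.card A + p * j ∈ Spectrum L φ := by
      intro A _ _ hφ hA j
      obtain ⟨M', sM', -, hcard, hM'⟩ := hpump A hφ (Or.inr hA) j
      have hne : Nonempty A := by
        obtain ⟨X, hX, -⟩ := hA
        have h1 : 0 < X.ncard := lt_of_lt_of_le (Nat.mul_pos hC (Nat.succ_pos _)) hX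
        obtain ⟨x, -⟩ := Set.nonempty_of_ncard_ne_zero h1.ne'
        exact ⟨x⟩
      have hpos : 0 < Nat.card A := Nat.card_pos
      refine ⟨by omega, M', sM', ?_, hM'⟩
      rw [hcard, Nat.mul_comm]
    refine ⟨C, p, hC, hp, fun A _ _ hφ hA j => hsp A hφ hA j, ?_⟩
    intro B hB
    have h0 : (0 : ℕ) ∉ Spectrum L φ := fun h => absurd h.1 (lt_irrefl 0)
    have hclosed : ∀ n ∈ Spectrum L φ, B < n → n + p ∈ Spectrum L φ := by
      intro n hn hBn
      obtain ⟨A, sA, hcard, hφ, hA⟩ := hB n hn hBn.le
      have hn0 : Nat.card A ≠ 0 := by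
        have := hn.1
        omega
      have hfin : Finite A := Nat.finite_of_card_ne_zero hn0
      have := hsp A hφ hA 1
      rw [hcard, mul_one] at this
      exact this
    obtain ⟨N, hN⟩ := Pool.Agent.Helper31.Spectra.eventually_periodic (Spectrum L φ) B p hp
      hclosed
    exact ⟨⟨N, hN⟩,
      (Pool.Agent.Helper31.Spectra.isSpectrum_compl (Spectrum L φ) h0 B p hp hclosed).2⟩
  · intro C hC hyp L φ hL
    refine Pool.Agent.Helper6.ED.barrier_ax C (12 * C) (by omega) ?_ L φ hL
    intro s κ₀ hκ ψ hψ
    exact hyp (Pool.Agent.Helper6.ED.LU s (12 * C)) ψ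
      ⟨⟨⟨Pool.Agent.Helper6.ED.isEmpty_LU s _, Pool.Agent.Helper6.ED.finite_LU s _⟩,
        Pool.Agent.Helper6.ED.binary_LU s _⟩,
        fun M _ _ _ hM => ⟨thin_U (hψ M hM) hC (by omega) κ₀ hκ.le,
          path_part (hψ M hM) hC le_rfl κ₀⟩⟩
  · intro C hC
    obtain ⟨φ, hφ, hper⟩ := Pool.Agent.Helper6.ED.not_periodic_ax C (12 * C) (by omega)
    refine ⟨Pool.Agent.Helper6.ED.LU (Pool.Agent.Helper6.ED.s1 C) (12 * C), φ,
      ⟨⟨⟨Pool.Agent.Helper6.ED.isEmpty_LU _ _, Pool.Agent.Helper6.ED.finite_LU _ _⟩,
        Pool.Agent.Helper6.ED.binary_LU _ _⟩,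
        fun M _ _ _ hM => ⟨thin_U (hφ M hM) hC (by omega) () ?_,
          path_part (hφ M hM) hC le_rfl ()⟩⟩, ?_⟩
    · show C ≤ C + 2
      omega
    · rintro p hp ⟨N, hN⟩
      exact hper ⟨N, p, hp, hN⟩

end Pool.Agent.Results.MP_8d783e_lc.SparseThreshold
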